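import Pool.Agent.N848.OL.Stm

/-!
# OL/STP: the property `PPP` goes up (helper186, project OL of helper848)
-/

set_option autoImplicit false

namespace Pool.Agent.N186.OL

open NumberField IsDedekindDomain Module Pool.Agent.H637R2.Leo Pool.Agent.Y18.LC
open Pool.Agent.N848.LT (Ab NS NSQ S_UP S_INT)
open Pool.Agent.N848.OL

/-- multiplication by `p`-th powers -/
theorem unP_of_pow {p : ℕ} {K : Type} [Field K] [NumberField K] {v : HeightOneSpectrum (𝓞 K)}
    {a b h : K} (hU : UnP p v a) (e : a = b * h ^ p) : UnP p v b := by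
  obtain ⟨y, h1, h2⟩ := hU
  refine ⟨h * y, ?_, ?_⟩
  · have : b * (h * y) ^ p = a * y ^ p := by rw [e, mul_pow]; ring
    rw [this]; exact h1
  · have : b * (h * y) ^ p = a * y ^ p := by rw [e, mul_pow]; ring
    rw [this]; exact h2

/-- quotients -/
theorem unP_div {p : ℕ} {K : Type} [Field K] [NumberField K]
    {v : HeightOneSpectrum (𝓞 K)}
    {a b : K} (hA : UnP p v a) (hB : UnP p v b) : UnP p v (a / b) := by
  obtain ⟨y, h1, h2⟩ := hA
  obtain ⟨z, h3, h4⟩ := hB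
  have hz : b * z ^ p ≠ 0 := by
    intro h
    rw [h, map_zero] at h3
    exact zero_ne_one h3
  have hb0 : b ≠ 0 := left_ne_zero_of_mul hz
  have hz0 : z ^ p ≠ 0 := right_ne_zero_of_mul hz
  have e : a / b * (y / z) ^ p = (a * y ^ p) / (b * z ^ p) := by
    rw [div_pow]
    field_simp
  refine ⟨y / z, ?_, ?_⟩
  · rw [e, map_div₀, h1, h3, div_one]
  · rw [e]
    have e2 : (a * y ^ p) / (b * z ^ p) - 1 =
        ((a * y ^ p - 1) - (b * z ^ p - 1)) / (b * z ^ p) := by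
      field_simp
      ring
    rw [e2, map_div₀, h3, div_one]
    exact (Valuation.map_sub _ _ _).trans (max_le h2 h4)

theorem exq {E : Type} [Field E] [NumberField E] (v : HeightOneSpectrum (𝓞 E)) :
    ∃ q : ℕ, q.Prime ∧ (q : 𝓞 E) ∈ v.asIdeal := by
  have h1 : Finite (𝓞 E ⧸ v.asIdeal) := Ideal.finiteQuotientOfFreeOfNeBot v.asIdeal v.ne_bot
  obtain ⟨q, hq⟩ := CharP.exists (𝓞 E ⧸ v.asIdeal)
  refine ⟨q, CharP.char_is_prime (𝓞 E ⧸ v.asIdeal) q, ?_⟩
  rw [← Ideal.Quotient.eq_zero_iff_mem, map_natCast]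
  exact CharP.cast_eq_zero _ q

theorem val_p {p : ℕ} {K : Type} [Field K] [NumberField K] (v : HeightOneSpectrum (𝓞 K))
    (h : (p : 𝓞 K) ∉ v.asIdeal) : v.valuation K (p : K) = 1 := by
  have h1 : v.valuation K (algebraMap (𝓞 K) K (p : 𝓞 K)) = 1 := by
    rcases lt_or_eq_of_le (v.valuation_le_one (K := K) (p : 𝓞 K)) with h2 | h2
    · exfalso
      rw [v.valuation_lt_one_iff_mem] at h2
      exact h h2
    · exact h2
  rw [map_natCast] at h1
  exact h1

theorem unP_away {p : ℕ} {K : Type} [Field K] [NumberField K] (v : HeightOneSpectrum (𝓞 K))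
    (h : (p : 𝓞 K) ∉ v.asIdeal) {b : K} (hb : ∃ y : K, v.valuation K (b * y ^ p) = 1) :
    UnP p v b := by
  obtain ⟨y, hy⟩ := hb
  refine ⟨y, hy, ?_⟩
  rw [map_pow, val_p v h, one_pow]
  refine (Valuation.map_sub _ _ _).trans (max_le hy.le ?_)
  rw [map_one]

theorem pow_ring {K K' : Type} [Field K] [Field K'] [Algebra K K'] (σ : K' ≃ₐ[K] K') (n : ℕ)
    (x : K') : (σ.toRingEquiv ^ n) x = (σ ^ n) x := by
  induction n generalizing x with
  | zero => rfl
  | succ n ih =>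
    rw [pow_succ, pow_succ, AlgEquiv.mul_apply, ← ih]
    rfl

theorem t_STP (hVFP : S_VFP) (hRMP : S_RMP) (hVFR : S_VFR) (hNMT : S_NMT) (hHLP : S_HLP)
    (hORB : S_ORB) (hGAL : S_GAL) (hRTF : S_RTF) (hSGM : S_SGM) : S_STP := by
  intro p _ hp2 F F' K K' _ _ _ _ _ _ _ _ _ _ _ _ _ _ _ hQF' hFF' hF hKK' hK hadj hnd hMu hram hPP
  obtain ⟨-, hG2, ⟨σ, hσp, hσg⟩, hG4⟩ := hGAL p F F' K K' hFF' hF hKK' hK hadj
  have hnt : ∀ z : K', z ^ p = 1 → z = 1 := hNMT p hp2 K' hMu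
  have hntF : ∀ z : F', z ^ p = 1 → z = 1 := by
    intro z hz
    have h1 : algebraMap F' K' z = 1 := hnt _ (by rw [← map_pow, hz, map_one])
    exact (algebraMap F' K').injective (by rw [h1, map_one])
  intro f₀ hf₀ hU₀ hN₀
  by_contra hne
  obtain ⟨τ, hτ1, hτ2⟩ := hG4 σ
  have hCσ : ∀ f : K', f ≠ 0 →
      ((∀ w : HeightOneSpectrum (𝓞 K'), UnP p w f) ∧ ∃ c : F', Algebra.norm F' f = c ^ p) →
      ((∀ w : HeightOneSpectrum (𝓞 K'), UnP p w (σ.toRingEquiv f / f)) ∧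
        ∃ c : F', Algebra.norm F' (σ.toRingEquiv f / f) = c ^ p) := by
    intro f hf ⟨hU, c, hc⟩
    refine ⟨fun w => unP_div (hSGM p hp2 K K' f hf hU σ w) (hU w), τ c / c, ?_⟩
    have h1 : (σ.toRingEquiv f : K') = σ f := rfl
    have hNf : Algebra.norm F' f ≠ 0 := by
      rw [Algebra.norm_ne_zero_iff]
      exact hf
    have h2 : Algebra.norm F' (σ f / f) * Algebra.norm F' f = Algebra.norm F' (σ f) := by
      rw [← map_mul, div_mul_cancel₀ _ hf]
    rw [h1, eq_div_of_mul_eq hNf h2, hτ2, hc, map_pow, div_pow]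
  obtain ⟨f, h, hf, hh, ⟨hfU, c, hc⟩, hfp, hσf⟩ := hORB p K' σ.toRingEquiv
    (fun f => (∀ w : HeightOneSpectrum (𝓞 K'), UnP p w f) ∧ ∃ c : F', Algebra.norm F' f = c ^ p)
    (fun x => by rw [pow_ring]; exact hσp x) hCσ f₀ hf₀ ⟨hU₀, hN₀⟩ hne
  obtain ⟨b, j, hb, hj, hfb⟩ := hHLP p K K' hKK' hnt σ hσg f h hf hh hσf
  have hNj : Algebra.norm F' j ≠ 0 := by
    rw [Algebra.norm_ne_zero_iff]
    exact hj
  have h1 : algebraMap F F' (Algebra.norm F b) = (c / Algebra.norm F' j) ^ p := by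
    rw [← hG2, div_pow, ← hc, hfb, map_mul, map_pow]
    field_simp
  obtain ⟨z, hz, -⟩ := hRTF p F F' hFF' hntF _ _ h1
  have hbU : ∀ v : HeightOneSpectrum (𝓞 K), UnP p v b := by
    intro v
    by_cases hpv : (p : 𝓞 K) ∈ v.asIdeal
    · exact hVFP p hp2 K K' hKK' hK hMu v hpv b hb (fun w _ => unP_of_pow (hfU w) hfb)
    · apply unP_away v hpv
      obtain ⟨q, hq, hqv⟩ := exq v
      have hqp : q ≠ p := by
        rintro rfl
        exact hpv hqv
      rcases hram q hq hqp with hun | hns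
      · obtain ⟨w, -, hw⟩ := hRMP F' K K' hQF' hadj q hq hun v hqv
        obtain ⟨y, hy, -⟩ := unP_of_pow (hfU w) hfb
        obtain ⟨x, hx⟩ := v.valuation_surjective K (w.valuation K' y)
        refine ⟨x, ?_⟩
        rw [map_mul, map_pow, hx, ← hw, ← map_pow, ← map_mul]
        exact hy
      · have hAb : Ab v (v.under (𝓞 F)) := rfl
        have hqu : (q : 𝓞 F) ∈ (v.under (𝓞 F)).asIdeal := by
          rw [← hAb, Ideal.mem_comap, map_natCast]
          exact hqv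
        exact hVFR p F K hnd (v.under (𝓞 F)) (hns _ hqu) v hAb b z hb hz
  obtain ⟨y, hy⟩ := hPP b hb hbU ⟨z, hz⟩
  refine hfp ⟨algebraMap K K' y * j, ?_⟩
  rw [hfb, hy, map_pow, mul_pow]

end Pool.Agent.N186.OL
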